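import Mathlib
import Pool.Agent.R97.WalkGlobal

/-!
# MP_269329_co : signed weighted walk sums are not comparable with absolute ones

For `m = 3` and every `z = (a, b, c)` with `Im (b^3 * conj c ^ 2) ≠ 0` the quotients
`A_n(z) / |S_n(z)|` are unbounded.  Hence `W` has positive Lebesgue measure.
-/

namespace Pool.Agent.Results.MP_269329_co.Unbounded

open MeasureTheory Pool.Agent.R97.WalkCore Pool.Agent.R97.WalkEst Pool.Agent.R97.WalkGlobal

/-! ## Definitions -/

/-- `V(2k) = z_k` for `1 ≤ k ≤ m` (and `0` elsewhere). -/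
noncomputable def V {m : ℕ} (z : Fin m → ℂ) (s : ℕ) : ℂ :=
  if h : s % 2 = 0 ∧ 1 ≤ s / 2 ∧ s / 2 ≤ m then z ⟨s / 2 - 1, by omega⟩ else 0

/-- The vertex `j(t) = -n + x(1) + ... + x(t)`. -/
def vertex (n : ℕ) (x : List ℕ) (t : ℕ) : ℤ := -(n : ℤ) + ((x.take t).sum : ℤ)

/-- Admissible positive walks from `-n` to `n` with steps in `{2, 4, ..., 2m}`, given by their
lists of steps. -/
def Xset (m n : ℕ) : Set (List ℕ) :=
  {x | x ≠ [] ∧ (∀ s ∈ x, ∃ k, 1 ≤ k ∧ k ≤ m ∧ s = 2 * k) ∧ x.sum = 2 * n ∧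
    ∀ t, 1 ≤ t → t < x.length → vertex n x t ≠ n ∧ vertex n x t ≠ -n}

/-- The weight of a walk. -/
noncomputable def hw {m : ℕ} (z : Fin m → ℂ) (n : ℕ) (x : List ℕ) : ℂ :=
  (∏ t ∈ Finset.Ico 1 x.length, ((n : ℂ) ^ 2 - (vertex n x t : ℂ) ^ 2)⁻¹) * (x.map (V z)).prod

/-- `A_n(z)`. -/
noncomputable def A {m : ℕ} (z : Fin m → ℂ) (n : ℕ) : ℝ := ∑ᶠ x ∈ Xset m n, ‖hw z n x‖

/-- `S_n(z)`. -/
noncomputable def S {m : ℕ} (z : Fin m → ℂ) (n : ℕ) : ℂ := ∑ᶠ x ∈ Xset m n, hw z n x

/-- `W`: the set of `z` with `C(z) = ∞`, i.e. such that no finite `C` satisfies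
`A_n(z) ≤ C |S_n(z)|` for all `n`. -/
def W (m : ℕ) : Set (Fin m → ℂ) := {z | ¬ ∃ C : ℝ, ∀ n : ℕ, A z n ≤ C * ‖S z n‖}

/-! ## Enumeration of the walks for `m = 3` -/

/-- Step lists with steps `2, 4, 6` and sum `2k`. -/
def F : ℕ → Finset (List ℕ)
  | 0 => {[]}
  | 1 => {[2]}
  | 2 => {[2, 2], [4]}
  | (k + 3) => (F (k + 2)).image (List.cons 2) ∪ (F (k + 1)).image (List.cons 4) ∪
      (F k).image (List.cons 6)

theorem F_succ (k : ℕ) : F (k + 3) = (F (k + 2)).image (List.cons 2) ∪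
    (F (k + 1)).image (List.cons 4) ∪ (F k).image (List.cons 6) := by rw [F]

theorem mem_F : ∀ k x, x ∈ F k ↔ (∀ s ∈ x, s = 2 ∨ s = 4 ∨ s = 6) ∧ x.sum = 2 * k := by
  intro k
  induction k using three_ind with
  | h0 =>
    intro x
    simp only [F, Finset.mem_singleton]
    constructor
    · rintro rfl; simp
    · rintro ⟨h1, h2⟩
      cases x with
      | nil => rfl
      | cons s y =>
        have h3 := h1 s (by simp)
        simp only [List.sum_cons] at h2
        omega
  | h1 =>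
    intro x
    simp only [F, Finset.mem_singleton]
    constructor
    · rintro rfl; simp
    · rintro ⟨h1, h2⟩
      cases x with
      | nil => simp at h2
      | cons s y =>
        have h3 := h1 s (by simp)
        simp only [List.sum_cons] at h2
        cases y with
        | nil => simp at h2; simp [h2]
        | cons s' y' =>
          have h4 := h1 s' (by simp)
          simp only [List.sum_cons] at h2
          omega
  | h2 =>
    intro x
    simp only [F, Finset.mem_insert, Finset.mem_singleton]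
    constructor
    · rintro (rfl | rfl) <;> simp
    · rintro ⟨h1, h2⟩
      cases x with
      | nil => simp at h2
      | cons s y =>
        have h3 := h1 s (by simp)
        simp only [List.sum_cons] at h2
        cases y with
        | nil => right; simp at h2; simp [h2]
        | cons s' y' =>
          have h4 := h1 s' (by simp)
          simp only [List.sum_cons] at h2
          cases y' with
          | nil =>
            left
            simp at h2
            have : s = 2 := by omega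
            have : s' = 2 := by omega
            simp_all
          | cons s'' y'' =>
            have h5 := h1 s'' (by simp)
            simp only [List.sum_cons] at h2
            omega
  | h k ih0 ih1 ih2 =>
    intro x
    rw [F_succ]
    simp only [Finset.mem_union, Finset.mem_image, ih0, ih1, ih2]
    constructor
    · rintro ((⟨y, ⟨hy1, hy2⟩, rfl⟩ | ⟨y, ⟨hy1, hy2⟩, rfl⟩) | ⟨y, ⟨hy1, hy2⟩, rfl⟩)
      · refine ⟨fun s hs => ?_, by simp only [List.sum_cons]; omega⟩
        rcases List.mem_cons.1 hs with rfl | hs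
        · simp
        · exact hy1 s hs
      · refine ⟨fun s hs => ?_, by simp only [List.sum_cons]; omega⟩
        rcases List.mem_cons.1 hs with rfl | hs
        · simp
        · exact hy1 s hs
      · refine ⟨fun s hs => ?_, by simp only [List.sum_cons]; omega⟩
        rcases List.mem_cons.1 hs with rfl | hs
        · simp
        · exact hy1 s hs
    · rintro ⟨h1, h2⟩
      cases x with
      | nil => simp at h2
      | cons s y =>
        have h3 := h1 s (by simp)
        have hy : ∀ s ∈ y, s = 2 ∨ s = 4 ∨ s = 6 := fun t ht => h1 t (List.mem_cons_of_mem _ ht)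
        simp only [List.sum_cons] at h2
        rcases h3 with rfl | rfl | rfl
        · left; left; exact ⟨y, ⟨hy, by omega⟩, rfl⟩
        · left; right; exact ⟨y, ⟨hy, by omega⟩, rfl⟩
        · right; exact ⟨y, ⟨hy, by omega⟩, rfl⟩

theorem Xset_eq {n : ℕ} (hn : 1 ≤ n) : Xset 3 n = (F n : Set (List ℕ)) := by
  ext x
  rw [Finset.mem_coe, mem_F]
  constructor
  · rintro ⟨_, h2, h3, _⟩
    refine ⟨fun s hs => ?_, h3⟩
    obtain ⟨k, hk1, hk2, rfl⟩ := h2 s hs
    omega
  · rintro ⟨h1, h2⟩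
    refine ⟨?_, ?_, h2, ?_⟩
    · rintro rfl
      simp at h2
      omega
    · intro s hs
      rcases h1 s hs with rfl | rfl | rfl
      · exact ⟨1, by norm_num, by norm_num, rfl⟩
      · exact ⟨2, by norm_num, by norm_num, rfl⟩
      · exact ⟨3, by norm_num, by norm_num, rfl⟩
    · intro t ht1 ht2
      have htake : 0 < (x.take t).sum := by
        cases x with
        | nil => simp at ht2
        | cons s y =>
          obtain ⟨t', rfl⟩ : ∃ t', t = t' + 1 := ⟨t - 1, by omega⟩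
          have := h1 s (by simp)
          simp only [List.take_succ_cons, List.sum_cons]
          omega
      have hdrop : 0 < (x.drop t).sum := by
        have hne : x.drop t ≠ [] := by
          intro h
          rw [List.drop_eq_nil_iff] at h
          omega
        obtain ⟨s, y, hsy⟩ := List.exists_cons_of_ne_nil hne
        have hs : s ∈ x := by
          have : s ∈ x.drop t := by rw [hsy]; simp
          exact List.mem_of_mem_drop this
        have := h1 s hs
        rw [hsy]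
        simp only [List.sum_cons]
        omega
      have htot : (x.take t).sum + (x.drop t).sum = 2 * n := by
        rw [← List.sum_append, List.take_append_drop, h2]
      unfold vertex
      constructor <;> omega

/-! ## The recursion -/

section rec

variable {K : Type*} [Field K]

/-- Recursive form of the weight. -/
def w (f : ℕ → K) (v : ℕ → K) : List ℕ → K
  | [] => 1
  | (s :: y) => v s * ((if y = [] then 1 else f y.sum) * w f v y)

/-- `U(0) = 1` and `U(k) = f(2k) T(k)`, where `T(k)` is the total weight of `F k`. -/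
def U (f : ℕ → K) (v : ℕ → K) (k : ℕ) : K :=
  if k = 0 then 1 else f (2 * k) * ∑ x ∈ F k, w f v x

theorem sum_F_U (f : ℕ → K) (v : ℕ → K) (k : ℕ) :
    ∑ y ∈ F k, ((if y = [] then 1 else f y.sum) * w f v y) = U f v k := by
  unfold U
  rcases Nat.eq_zero_or_pos k with rfl | hk
  · simp [F, w]
  · rw [if_neg (by omega), Finset.mul_sum]
    refine Finset.sum_congr rfl fun y hy => ?_
    have h := (mem_F k y).1 hy
    have hne : y ≠ [] := by
      rintro rfl
      have := h.2
      simp at this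
      omega
    rw [if_neg hne, h.2]

theorem sum_F_succ (f : ℕ → K) (v : ℕ → K) (k : ℕ) :
    ∑ x ∈ F (k + 3), w f v x = v 2 * U f v (k + 2) + v 4 * U f v (k + 1) + v 6 * U f v k := by
  rw [F_succ, Finset.sum_union, Finset.sum_union, Finset.sum_image, Finset.sum_image,
    Finset.sum_image]
  · simp only [w]
    rw [← Finset.mul_sum, ← Finset.mul_sum, ← Finset.mul_sum, sum_F_U, sum_F_U, sum_F_U]
  · intro x _ y _ h; exact List.cons_injective h
  · intro x _ y _ h; exact List.cons_injective h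
  · intro x _ y _ h; exact List.cons_injective h
  · rw [Finset.disjoint_left]
    intro x hx hx'
    obtain ⟨y, _, rfl⟩ := Finset.mem_image.1 hx
    obtain ⟨y', _, h⟩ := Finset.mem_image.1 hx'
    simp at h
  · rw [Finset.disjoint_left]
    intro x hx hx'
    obtain ⟨y', _, h⟩ := Finset.mem_image.1 hx'
    rcases Finset.mem_union.1 hx with hx | hx
    · obtain ⟨y, _, rfl⟩ := Finset.mem_image.1 hx
      simp at h
    · obtain ⟨y, _, rfl⟩ := Finset.mem_image.1 hx
      simp at h

theorem U_eq_sol (f : ℕ → K) (v : ℕ → K) (γ : ℕ → K) (hγ : ∀ i, γ i = f (2 * (i + 1))) (k : ℕ) :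
    U f v k = sol γ (v 2) (v 4) (v 6) 0 0 1 (k + 2) := by
  induction k using three_ind with
  | h0 => simp [U, sol]
  | h1 =>
    simp [U, F, w, sol, hγ]
  | h2 =>
    have h4 : ([2, 2] : List ℕ) ≠ [4] := by simp
    simp only [U, F, sol, hγ]
    rw [Finset.sum_pair h4]
    simp [w]
  | h k ih0 ih1 ih2 =>
    have e : U f v (k + 3) = f (2 * (k + 3)) * ∑ x ∈ F (k + 3), w f v x := by
      unfold U; rw [if_neg (by omega)]
    rw [e, sum_F_succ, ih0, ih1, ih2]
    have e2 : k + 3 + 2 = (k + 2) + 3 := by ring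
    rw [e2, sol_succ γ _ _ _ _ _ _ (k + 2), hγ]

theorem T_eq_sol (f : ℕ → K) (v : ℕ → K) (γ : ℕ → K) (hγ : ∀ i, γ i = f (2 * (i + 1))) {n : ℕ}
    (hn : 3 ≤ n) :
    ∑ x ∈ F n, w f v x = v 2 * sol γ (v 2) (v 4) (v 6) 0 0 1 (n + 1) +
      v 4 * sol γ (v 2) (v 4) (v 6) 0 0 1 n + v 6 * sol γ (v 2) (v 4) (v 6) 0 0 1 (n - 1) := by
  obtain ⟨k, rfl⟩ : ∃ k, n = k + 3 := ⟨n - 3, by omega⟩
  rw [sum_F_succ, U_eq_sol f v γ hγ, U_eq_sol f v γ hγ, U_eq_sol f v γ hγ]
  rfl

theorem w_eq_prod (f : ℕ → K) (v : ℕ → K) (x : List ℕ) :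
    w f v x = (∏ t ∈ Finset.Ico 1 x.length, f ((x.drop t).sum)) * (x.map v).prod := by
  induction x with
  | nil => simp [w]
  | cons s y ih =>
    rw [w, ih]
    cases y with
    | nil => simp
    | cons s' y' =>
      rw [if_neg (by simp)]
      have e : ∏ t ∈ Finset.Ico 1 (s :: s' :: y').length, f (((s :: s' :: y').drop t).sum) =
          f ((s' :: y').sum) * ∏ t ∈ Finset.Ico 1 (s' :: y').length,
            f (((s' :: y').drop t).sum) := by
        have h1 : (s :: s' :: y').length = (s' :: y').length + 1 := rfl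
        rw [h1, ← Finset.prod_Ico_add' (fun t => f (((s :: s' :: y').drop t).sum)) 0
          (s' :: y').length 1]
        rw [Finset.prod_eq_prod_Ico_succ_bot (by simp)]
        simp
      rw [e]
      simp only [List.map_cons, List.prod_cons]
      ring

end rec

/-- The real vertex factor as a function of twice the remaining distance. -/
noncomputable def fR (n : ℕ) (y : ℕ) : ℝ :=
  if y < 2 * n then ((y : ℝ) * (2 * n - y))⁻¹ else 0

theorem fR_nonneg (n y : ℕ) : 0 ≤ fR n y := by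
  unfold fR
  split_ifs with h
  · have : (y : ℝ) < 2 * n := by exact_mod_cast h
    have : (0 : ℝ) ≤ 2 * n - y := by linarith
    positivity
  · exact le_refl _

theorem gg_eq (n i : ℕ) : gg n (i + 1) = fR n (2 * (i + 1)) := by
  unfold gg fR
  by_cases h : i + 1 < n
  · rw [if_pos h, if_pos (by omega)]
    congr 1
    push_cast
    ring
  · rw [if_neg h, if_neg (by omega)]

theorem norm_w (f : ℕ → ℝ) (hf : ∀ y, 0 ≤ f y) (v : ℕ → ℂ) (x : List ℕ) :
    ‖w (fun y => (f y : ℂ)) v x‖ = w f (fun s => ‖v s‖) x := by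
  induction x with
  | nil => simp [w]
  | cons s y ih =>
    rw [w, w, norm_mul, norm_mul, ih]
    split_ifs with h
    · simp
    · rw [Complex.norm_real, Real.norm_of_nonneg (hf _)]

theorem factor_eq {T D n : ℕ} (h : T + D = 2 * n) :
    ((n : ℂ) ^ 2 - ((-(n : ℤ) + (T : ℤ) : ℤ) : ℂ) ^ 2)⁻¹ =
      ((((D : ℝ) * (2 * n - D))⁻¹ : ℝ) : ℂ) := by
  have e : (T : ℂ) = 2 * n - D := by
    have : (T : ℂ) + D = 2 * n := by exact_mod_cast h
    rw [← this]; ring
  push_cast
  congr 1
  rw [e]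
  ring

theorem hw_eq {n : ℕ} (hn : 1 ≤ n) (z : Fin 3 → ℂ) {x : List ℕ} (hx : x ∈ F n) :
    hw z n x = w (fun y => (fR n y : ℂ)) (V z) x := by
  rw [w_eq_prod]
  unfold hw
  congr 1
  refine Finset.prod_congr rfl fun t ht => ?_
  rw [Finset.mem_Ico] at ht
  have h := (mem_F n x).1 hx
  have htot : (x.take t).sum + (x.drop t).sum = 2 * n := by
    rw [← List.sum_append, List.take_append_drop, h.2]
  have htake : 0 < (x.take t).sum := by
    cases x with
    | nil => simp at ht
    | cons s y =>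
      obtain ⟨t', rfl⟩ : ∃ t', t = t' + 1 := ⟨t - 1, by omega⟩
      have := h.1 s (by simp)
      simp only [List.take_succ_cons, List.sum_cons]
      omega
  unfold fR
  rw [if_pos (by omega)]
  exact factor_eq htot

theorem V_two (z : Fin 3 → ℂ) : V z 2 = z 0 := by simp [V]
theorem V_four (z : Fin 3 → ℂ) : V z 4 = z 1 := by simp [V]
theorem V_six (z : Fin 3 → ℂ) : V z 6 = z 2 := by simp [V]

theorem S_eq {n : ℕ} (hn : 3 ≤ n) (z : Fin 3 → ℂ) : S z n =
    z 0 * sol (fun j => ((gg n (j + 1) : ℝ) : ℂ)) (z 0) (z 1) (z 2) 0 0 1 (n + 1) +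
    z 1 * sol (fun j => ((gg n (j + 1) : ℝ) : ℂ)) (z 0) (z 1) (z 2) 0 0 1 n +
    z 2 * sol (fun j => ((gg n (j + 1) : ℝ) : ℂ)) (z 0) (z 1) (z 2) 0 0 1 (n - 1) := by
  unfold S
  rw [Xset_eq (by omega), finsum_mem_coe_finset]
  rw [Finset.sum_congr rfl (fun x hx => hw_eq (by omega) z hx)]
  have := T_eq_sol (fun y => (fR n y : ℂ)) (V z) (fun j => ((gg n (j + 1) : ℝ) : ℂ))
    (fun i => by rw [gg_eq]) hn
  rw [this, V_two, V_four, V_six]

theorem A_eq {n : ℕ} (hn : 3 ≤ n) (z : Fin 3 → ℂ) : A z n =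
    ‖z 0‖ * sol (fun j => gg n (j + 1)) ‖z 0‖ ‖z 1‖ ‖z 2‖ 0 0 1 (n + 1) +
    ‖z 1‖ * sol (fun j => gg n (j + 1)) ‖z 0‖ ‖z 1‖ ‖z 2‖ 0 0 1 n +
    ‖z 2‖ * sol (fun j => gg n (j + 1)) ‖z 0‖ ‖z 1‖ ‖z 2‖ 0 0 1 (n - 1) := by
  unfold A
  rw [Xset_eq (by omega), finsum_mem_coe_finset]
  rw [Finset.sum_congr rfl (fun x hx => by
    rw [hw_eq (by omega) z hx, norm_w (fR n) (fR_nonneg n)])]
  have := T_eq_sol (fR n) (fun s => ‖V z s‖) (fun j => gg n (j + 1)) (fun i => gg_eq n i) hn
  simp only [V_two, V_four, V_six] at this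
  exact this

/-! ## The result -/

/-- The exceptional condition. -/
theorem mem_W {z : Fin 3 → ℂ} (hz : (z 1 ^ 3 * (starRingEnd ℂ (z 2)) ^ 2).im ≠ 0) : z ∈ W 3 := by
  have hb : z 1 ≠ 0 := by
    intro h; rw [h] at hz; simp at hz
  have hc : z 2 ≠ 0 := by
    intro h; rw [h] at hz; simp at hz
  have hB : 0 < ‖z 1‖ := norm_pos_iff.2 hb
  have hC : 0 < ‖z 2‖ := norm_pos_iff.2 hc
  set u : ℂ := z 1 / ‖z 1‖ with hu
  set v : ℂ := z 2 / ‖z 2‖ with hv
  have hBc : ((‖z 1‖ : ℝ) : ℂ) ≠ 0 := by exact_mod_cast hB.ne'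
  have hCc : ((‖z 2‖ : ℝ) : ℂ) ≠ 0 := by exact_mod_cast hC.ne'
  have hu1 : z 1 = ‖z 1‖ * u := by rw [hu]; field_simp
  have hv1 : z 2 = ‖z 2‖ * v := by rw [hv]; field_simp
  have hun : ‖u‖ = 1 := by
    rw [hu, norm_div, Complex.norm_real, norm_norm, div_self hB.ne']
  have hvn : ‖v‖ = 1 := by
    rw [hv, norm_div, Complex.norm_real, norm_norm, div_self hC.ne']
  have huv : v ^ 2 ≠ u ^ 3 := by
    intro h
    apply hz
    have e : z 1 ^ 3 * (starRingEnd ℂ (z 2)) ^ 2 =
        ((‖z 1‖ ^ 3 * ‖z 2‖ ^ 2 : ℝ) : ℂ) * (u ^ 3 * (starRingEnd ℂ v) ^ 2) := by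
      have f1 : z 1 ^ 3 = ((‖z 1‖ : ℝ) : ℂ) ^ 3 * u ^ 3 := by rw [← mul_pow, ← hu1]
      have f2 : (starRingEnd ℂ (z 2)) ^ 2 = ((‖z 2‖ : ℝ) : ℂ) ^ 2 * (starRingEnd ℂ v) ^ 2 := by
        rw [← mul_pow]
        congr 1
        conv_lhs => rw [hv1]
        rw [map_mul, Complex.conj_ofReal]
      rw [f1, f2]
      push_cast
      ring
    have e2 : v ^ 2 * (starRingEnd ℂ v) ^ 2 = 1 := by
      rw [← mul_pow, Complex.mul_conj, Complex.normSq_eq_norm_sq, hvn]
      simp
    rw [e, ← h, e2, mul_one]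
    exact Complex.ofReal_im _
  obtain ⟨δ, hδ0, hδ1, hglob⟩ := global (z 0) hu1 hv1 hun hvn hb hc huv
  rintro ⟨C, hCn⟩
  -- choose p
  have hC1 : 0 < max C 1 := lt_of_lt_of_le one_pos (le_max_right _ _)
  obtain ⟨p0, hp0⟩ := exists_pow_lt_of_lt_one (show (0 : ℝ) < 1 / max C 1 by positivity)
    (show 1 - δ < 1 by linarith)
  set p := max p0 4 with hp
  have hp4 : 4 ≤ p := le_max_right _ _
  have hpow : (1 - δ) ^ p < 1 / max C 1 :=
    lt_of_le_of_lt (pow_le_pow_of_le_one (by linarith) (by linarith) (le_max_left _ _)) hp0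
  set n := 64 * p ^ 3 with hn
  have hp3 : 64 ≤ p ^ 3 := by
    calc 64 = 4 ^ 3 := by norm_num
      _ ≤ p ^ 3 := Nat.pow_le_pow_left hp4 3
  have h3n : 3 ≤ n := by omega
  have g := hglob p hp4
  rw [← hn] at g
  have g1 := g (n + 1) (by omega)
  have g2 := g n (by omega)
  have g3 := g (n - 1) (by omega)
  have hSA : ‖S z n‖ ≤ (1 - δ) ^ p * A z n := by
    rw [S_eq h3n, A_eq h3n]
    refine (norm_add₃_le).trans ?_
    rw [norm_mul, norm_mul, norm_mul]
    have f1 := mul_le_mul_of_nonneg_left g1 (norm_nonneg (z 0))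
    have f2 := mul_le_mul_of_nonneg_left g2 (norm_nonneg (z 1))
    have f3 := mul_le_mul_of_nonneg_left g3 (norm_nonneg (z 2))
    linarith
  have hApos : 0 < A z n := by
    rw [A_eq h3n]
    have hnn : ∀ i, 0 ≤ sol (fun j => gg n (j + 1)) ‖z 0‖ ‖z 1‖ ‖z 2‖ 0 0 1 i :=
      fun i => solR_nonneg (fun j => gg_nonneg _ _) (le_refl 0) (le_refl 0) zero_le_one
        (norm_nonneg _) (norm_nonneg _) (norm_nonneg _) i
    have hpos := ua_pos (n := n) (norm_nonneg (z 0)) hB (norm_nonneg (z 2)) (32 * p ^ 3 - 1)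
      (by omega)
    have e : 2 + 2 * (32 * p ^ 3 - 1) = n := by omega
    rw [e] at hpos
    have f1 := mul_nonneg (norm_nonneg (z 0)) (hnn (n + 1))
    have f2 := mul_pos hB hpos
    have f3 := mul_nonneg (norm_nonneg (z 2)) (hnn (n - 1))
    linarith
  have h1 := hCn n
  have h2 : A z n ≤ max C 1 * ‖S z n‖ :=
    h1.trans (mul_le_mul_of_nonneg_right (le_max_left _ _) (norm_nonneg _))
  have h3 : A z n ≤ max C 1 * ((1 - δ) ^ p * A z n) :=
    h2.trans (mul_le_mul_of_nonneg_left hSA hC1.le)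
  have h4 : max C 1 * (1 - δ) ^ p < 1 := by
    rw [lt_div_iff₀ hC1] at hpow
    linarith
  nlinarith

/-- **MP_269329_co (Q1), negative answer.**  For `m = 3` every `z` with
`Im (z_2 ^ 3 * conj z_3 ^ 2) ≠ 0` has `sup_n A_n(z) / |S_n(z)| = ∞`; this is a nonempty open set, so
`W` has positive Lebesgue measure and the almost everywhere statement is false. -/
theorem result :
    (∀ z : Fin 3 → ℂ, (z 1 ^ 3 * (starRingEnd ℂ (z 2)) ^ 2).im ≠ 0 → z ∈ W 3) ∧
    0 < volume (W 3) ∧
    (¬ ∀ m : ℕ, 1 ≤ m → ∀ᵐ z : Fin m → ℂ, ∃ C : ℝ, ∀ n : ℕ, A z n ≤ C * ‖S z n‖) ∧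
    (∀ n : ℕ, (Xset 3 n).Finite) := by
  have hopen : IsOpen {z : Fin 3 → ℂ | (z 1 ^ 3 * (starRingEnd ℂ (z 2)) ^ 2).im ≠ 0} := by
    apply isOpen_ne_fun
    · exact Complex.continuous_im.comp (((continuous_apply 1).pow 3).mul
        ((Complex.continuous_conj.comp (continuous_apply 2)).pow 2))
    · exact continuous_const
  have hne : {z : Fin 3 → ℂ | (z 1 ^ 3 * (starRingEnd ℂ (z 2)) ^ 2).im ≠ 0}.Nonempty := by
    refine ⟨![0, -Complex.I, 1], ?_⟩
    have h3 : (-Complex.I) ^ 3 = Complex.I := by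
      have : (-Complex.I) ^ 3 = -(Complex.I ^ 2 * Complex.I) := by ring
      rw [this, Complex.I_sq]; ring
    show ((-Complex.I) ^ 3 * (starRingEnd ℂ (1 : ℂ)) ^ 2).im ≠ 0
    rw [h3]
    simp
  have hpos : 0 < volume {z : Fin 3 → ℂ | (z 1 ^ 3 * (starRingEnd ℂ (z 2)) ^ 2).im ≠ 0} :=
    hopen.measure_pos volume hne
  have hW : 0 < volume (W 3) := lt_of_lt_of_le hpos (measure_mono fun z hz => mem_W hz)
  refine ⟨fun z hz => mem_W hz, hW, ?_, ?_⟩
  · intro h
    have h3 := h 3 (by norm_num)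
    rw [ae_iff] at h3
    exact hW.ne' h3
  · intro n
    rcases Nat.eq_zero_or_pos n with rfl | hn
    · have : Xset 3 0 = ∅ := by
        ext x
        simp only [Set.mem_empty_iff_false, iff_false]
        rintro ⟨h1, h2, h3, _⟩
        cases x with
        | nil => exact h1 rfl
        | cons s y =>
          obtain ⟨k, hk1, _, rfl⟩ := h2 s (by simp)
          simp only [List.sum_cons] at h3
          omega
      rw [this]
      exact Set.finite_empty
    · rw [Xset_eq hn]
      exact Finset.finite_toSet _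

end Pool.Agent.Results.MP_269329_co.Unbounded
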